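import Pool.Agent.Helper81.MH.Goals

/-!
# Packet MH TAD (MP_340b06_lc, helper81): the family coded by types is almost disjoint
-/

set_option autoImplicit false

namespace Pool.Agent.Helper50.MH.TAD

open Set Cardinal Filter
open Pool.Agent.Helper81.SB
open Pool.Agent.Helper81.MH

theorem pre_mono {a d : Set ℕ} (h : a ⊆ d) (k : ℕ) : pre a k ⊆ pre d k := by
  intro m hm
  rw [mem_pre] at hm ⊢
  exact ⟨hm.1, h hm.2⟩

theorem exists_large {S : Set ℕ} (hS : S.Infinite) (r : ℕ) : ∃ k ∈ S, r ≤ (pre S k).card := by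
  obtain ⟨t, ht, hc⟩ := hS.exists_subset_card_eq r
  obtain ⟨k, hk, hlt⟩ := hS.exists_gt (t.sup id)
  refine ⟨k, hk, ?_⟩
  rw [← hc]
  apply Finset.card_le_card
  intro m hm
  rw [mem_pre]
  refine ⟨lt_of_le_of_lt ?_ hlt, ht hm⟩
  exact Finset.le_sup (f := id) hm

theorem exists_large₂ {a d : Set ℕ} (h : (a ∩ d).Infinite) (r : ℕ) :
    ∃ k, k ∈ a ∧ k ∈ d ∧ r ≤ (pre a k).card ∧ r ≤ (pre d k).card := by
  obtain ⟨k, hk, hr⟩ := exists_large h r
  exact ⟨k, hk.1, hk.2, hr.trans (Finset.card_le_card (pre_mono inter_subset_left k)),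
    hr.trans (Finset.card_le_card (pre_mono inter_subset_right k))⟩

/-- before the first disagreement -/
theorem agree {x : W → Set ℕ} {e : W → ℕ → W} {c : W} {t : ℕ → Bool} {κ r : ℕ}
    (h : r < NN x e c t κ) : κ ∈ x (e c r) ↔ t r = true := by
  classical
  have h1 := Nat.find_min (exN x e c t κ) h
  rw [not_or] at h1
  have h2 := h1.2
  unfold Dis at h2
  exact not_not.1 h2

theorem itr_congr {x : W → Set ℕ} {e : W → ℕ → W} {c : ℕ → W} {T T' : ℕ → ℕ → Bool} (k : ℕ) :
    ∀ m, (∀ i < m, T i = T' i) → itr x e c T k m = itr x e c T' k m := by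
  intro m
  induction m with
  | zero => intro _; rfl
  | succ m ih =>
    intro h
    have h1 := ih (fun i hi => h i (Nat.lt_succ_of_lt hi))
    show NN x e (c m) (T m) (itr x e c T k m) = NN x e (c m) (T' m) (itr x e c T' k m)
    rw [h1, h m (Nat.lt_succ_self m)]

theorem types_eq {x : W → Set ℕ} {e : W → ℕ → W} {c : ℕ → W} {T T' : ℕ → ℕ → Bool} {a d : Set ℕ}
    (hinf : (a ∩ d).Infinite)
    (h1 : ∀ k ∈ a, ∀ m ≤ (pre a k).card, (pre a k).card ≤ itr x e c T k (m + 1))
    (h2 : ∀ k ∈ d, ∀ m ≤ (pre d k).card, (pre d k).card ≤ itr x e c T' k (m + 1)) :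
    ∀ m, T m = T' m := by
  intro m
  induction m using Nat.strong_induction_on with
  | _ m ih =>
    funext r
    obtain ⟨k, ha, hd, hka, hkd⟩ := exists_large₂ hinf (max m (r + 1))
    have e1 : itr x e c T k m = itr x e c T' k m := itr_congr k m ih
    have g1 : r < NN x e (c m) (T m) (itr x e c T k m) := by
      have h := h1 k ha m ((le_max_left _ _).trans hka)
      have h' : r + 1 ≤ itr x e c T k (m + 1) := ((le_max_right _ _).trans hka).trans h
      exact h'
    have g2 : r < NN x e (c m) (T' m) (itr x e c T' k m) := by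
      have h := h2 k hd m ((le_max_left _ _).trans hkd)
      have h' : r + 1 ≤ itr x e c T' k (m + 1) := ((le_max_right _ _).trans hkd).trans h
      exact h'
    have q1 := agree g1
    have q2 := agree g2
    rw [e1] at q1
    have q : T m r = true ↔ T' m r = true := q1.symm.trans q2
    exact Bool.eq_iff_iff.2 q

theorem pre_eq_imp {a d : Set ℕ} (h : (a ∩ d).Infinite)
    (hp : ∀ k, k ∈ a → k ∈ d → pre a k = pre d k) : a = d := by
  ext m
  obtain ⟨k, hk, hlt⟩ := h.exists_gt m
  have h1 := hp k hk.1 hk.2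
  constructor
  · intro hm
    have : m ∈ pre a k := mem_pre.2 ⟨hlt, hm⟩
    rw [h1] at this
    exact (mem_pre.1 this).2
  · intro hm
    have : m ∈ pre d k := mem_pre.2 ⟨hlt, hm⟩
    rw [← h1] at this
    exact (mem_pre.1 this).2

theorem goal_TAD : Goal_TAD := by
  intro x e c f
  refine ⟨fun d hd => hd.1, ?_⟩
  rintro a ⟨ha, T, θ, hT⟩ d ⟨hd, T', θ', hT'⟩ hinf
  have hTT : T = T' := by
    funext m
    exact types_eq hinf (fun k hk m hm => ((hT k hk).1 m hm).1) (fun k hk m hm => ((hT' k hk).1 m hm).1) m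
  subst hTT
  have hθ : θ = θ' := by
    funext m
    obtain ⟨k, hka, hkd, h1, h2⟩ := exists_large₂ hinf m
    rw [← ((hT k hka).1 m h1).2, ← ((hT' k hkd).1 m h2).2]
  subst hθ
  apply pre_eq_imp hinf
  intro k hka hkd
  have h1 := (hT k hka).2
  have h2 := (hT' k hkd).2
  exact Encodable.encode_injective (h1.symm.trans h2)

end Pool.Agent.Helper50.MH.TAD
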